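import Pool.Agent.H839.PZ.Use
import Pool.Graph.R_pool_sql_team_seeded_2aa45f1a.Q193.LT.Soule

/-!
# Soulé's conjecture and graph hypersurfaces over the integers

For a separated scheme `X` of finite type over `ℤ` and an integer `n` let `ζ(X, s)` be the zeta function,
and `K'_i(X)_(n)` the part of `K'_i(X) ⊗ ℚ` of dimension `n` (Soulé; for `X` regular of pure dimension
`d` this is `K_i(X)_ℚ^{(d-n)}`, so `K'_i(X)_(0) = H^{2d-i}(X, ℚ(d))`). Let

* `D.fin n X` say that `ζ(X, s)` has a meromorphic continuation to `ℂ`, that all `K'_i(X)_(n)` have
  finite dimension and that almost all of them are zero;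
* `D.ord n X` be the order of `ζ(X, s)` at `s = n`, and
  `D.chi n X = ∑_i (-1)^(i+1) dim K'_i(X)_(n)`.

`SouleFormula D X`: for all integers `n`, `D.fin n X` holds and `D.ord n X = D.chi n X`. For `X`
regular, connected, flat and projective over `ℤ` and `n = 0` this is the equality of Q1 (together with
(i), (ii)). The properties `IsSoule D` are known (localization, affine bundles, the product with `𝔾_m`,
vanishing for `n > dim X`).

For a finite graph `G` with the edges `E` let `K_G ∈ ℤ[x_e : e ∈ E]` be the Kirchhoff polynomial, the
determinant of the reduced Laplace matrix with the weights `x_e` (the sum over the spanning trees of `G`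
of the products of their edges), and `Y_G` the complement in the affine space over `ℤ` of the graph
hypersurface `K_G = 0`. It is smooth over `ℤ`, and the zeta function `ζ(Y_G, s)` is given by the numbers
of the points of `Y_G` over the finite fields, which are the subject of a question of Kontsevich
(Stembridge, Belkale and Brosnan, Brown and Schnetz).

**Theorem.** (1) Soulé's formula holds for all separated schemes of finite type over `ℤ` and all
integers `n` if and only if it holds for the schemes `Y_G`, for all finite graphs `G` in which every
vertex has at most three neighbours.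

(2) For every separated scheme `X` of finite type over `ℤ` there is a finite list of such graphs, which
depends only on `X`, such that Soulé's formula for `X` follows from the formula for the schemes `Y_G` of
the graphs in the list.
-/

set_option autoImplicit false

open CategoryTheory AlgebraicGeometry Pool.Agent.Y116.UV Pool.Agent.Z125.UN Pool.Agent.Q193.LT
  Pool.Agent.H839.PZ

namespace Pool.Agent.Results.MP_f3836a_nt.GraphHypersurfaces

/-- **Soulé's conjecture and graph hypersurfaces.** See the explanations above; `SouleFormula D` for
`Spec ℤ` is the known case of the Riemann zeta function (Borel). -/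
theorem result :
    (∀ D : SouleData ℤ, IsSoule D → SouleFormula D (aff ℤ ℤ) →
      ((∀ X : Sch ℤ, FT True X → SouleFormula D X) ↔ ∀ g : Gph, SouleFormula D (g.co ℤ))) ∧
    ∀ X : Sch ℤ, FT True X → ∃ L : List Gph, ∀ D : SouleData ℤ, IsSoule D →
      SouleFormula D (aff ℤ ℤ) → (∀ g ∈ L, SouleFormula D (g.co ℤ)) → SouleFormula D X := by
  have hZ : Frac ℤ := frac_of_surj fun r => ⟨r, rfl⟩
  refine ⟨fun D hD point => gph_iff hZ (bnd_soule hD point), fun X hX => ?_⟩
  obtain ⟨L, hL⟩ := reachedK hZ X hX
  exact ⟨L, fun D hD point h => hL _ (bnd_soule hD point) h⟩

end Pool.Agent.Results.MP_f3836a_nt.GraphHypersurfaces
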